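import Mathlib
import Pool.Agent.Q151.Ball.Facts

/-!
# Ultrametric spaces: isometric completions and isometric spaces of balls of positive radius
-/

open Metric Set Filter Topology UniformSpace
open Pool.Agent.Q151.Ball

universe u v

namespace Pool.Agent.Results.MP_856f66_gt.BallSpaces

section Backward

variable {X : Type u} {Y : Type v} [MetricSpace X] [IsUltrametricDist X]
  [MetricSpace Y] [IsUltrametricDist Y]

lemma dist_le_max {A B : BallSpace X} {a b : X} (ha : a ∈ A.1) (hb : b ∈ B.1) :
    dist a b ≤ max (hd A B) (dm A) := by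
  by_cases h : A = B
  · subst h; exact le_max_of_le_right (dist_le_dm ha hb)
  · exact le_max_of_le_left (dist_le_hd h ha hb)

/-- small balls -/
noncomputable def bn (x : X) (n : ℕ) : BallSpace X := bl x (r := 1 / ((n : ℝ) + 1)) (by positivity)

omit [IsUltrametricDist X] in
lemma mem_bn (x : X) (n : ℕ) : x ∈ (bn x n).1 := mem_closedBall_self (by positivity)

lemma dm_bn (x : X) (n : ℕ) : dm (bn x n) ≤ 1 / ((n : ℝ) + 1) := dm_bl_le x _

lemma hd_bn (x : X) {n m N : ℕ} (hn : N ≤ n) (hm : N ≤ m) :
    hd (bn x n) (bn x m) ≤ 1 / ((N : ℝ) + 1) := by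
  have h : ∀ k : ℕ, N ≤ k → 1 / ((k : ℝ) + 1) ≤ 1 / ((N : ℝ) + 1) := fun k hk =>
    one_div_le_one_div_of_le (by positivity) (by gcongr)
  refine (hd_le (mem_bn x n) (mem_bn x m)).trans ?_
  rw [dist_self]
  exact max_le (by positivity) (max_le ((dm_bn x n).trans (h n hn)) ((dm_bn x m).trans (h m hm)))

variable (Ψ : BallSpace X ≃ BallSpace Y) (h1 : ∀ A B, hd (Ψ A) (Ψ B) = hd A B)
  (h2 : ∀ A, dm (Ψ A) = dm A)

/-- points in the images of small balls -/
noncomputable def yy (x : X) (n : ℕ) : Y := (Ψ (bn x n)).nonempty.some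

omit [IsUltrametricDist X] [IsUltrametricDist Y] in
lemma yy_mem (x : X) (n : ℕ) : yy Ψ x n ∈ (Ψ (bn x n)).1 := (Ψ (bn x n)).nonempty.some_mem

include h1 h2 in
lemma dist_yy (x : X) {n m N : ℕ} (hn : N ≤ n) (hm : N ≤ m) :
    dist (yy Ψ x n) (yy Ψ x m) ≤ 1 / ((N : ℝ) + 1) := by
  refine (dist_le_max (yy_mem Ψ x n) (yy_mem Ψ x m)).trans ?_
  rw [h1, h2]
  refine max_le (hd_bn x hn hm) ((dm_bn x n).trans ?_)
  exact one_div_le_one_div_of_le (by positivity) (by gcongr)

include h1 h2 in
lemma dist_yy_le (x x' : X) (n : ℕ) :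
    dist (yy Ψ x n) (yy Ψ x' n) ≤ max (dist x x') (1 / ((n : ℝ) + 1)) := by
  refine (dist_le_max (yy_mem Ψ x n) (yy_mem Ψ x' n)).trans ?_
  rw [h1, h2]
  refine max_le ((hd_le (mem_bn x n) (mem_bn x' n)).trans (max_le_max le_rfl (max_le ?_ ?_))) ?_
  · exact dm_bn x n
  · exact dm_bn x' n
  · exact le_max_of_le_right (dm_bn x n)

include h1 h2 in
lemma le_dist_yy (x x' : X) (n : ℕ) :
    dist x x' ≤ max (dist (yy Ψ x n) (yy Ψ x' n)) (1 / ((n : ℝ) + 1)) := by
  refine (dist_le_max (mem_bn x n) (mem_bn x' n)).trans (max_le ?_ ?_)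
  · rw [← h1]
    refine (hd_le (yy_mem Ψ x n) (yy_mem Ψ x' n)).trans (max_le_max le_rfl ?_)
    rw [h2, h2]
    exact max_le (dm_bn x n) (dm_bn x' n)
  · exact le_max_of_le_right (dm_bn x n)

include h1 h2 in
lemma exists_isometry : ∃ g : X → Completion Y, Isometry g ∧ DenseRange g := by
  have hC : ∀ x : X, CauchySeq fun n => ((yy Ψ x n : Y) : Completion Y) := by
    intro x
    refine cauchySeq_of_le_tendsto_0 (fun N : ℕ => 1 / ((N : ℝ) + 1)) ?_
      tendsto_one_div_add_atTop_nhds_zero_nat
    intro n m N hn hm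
    rw [Completion.dist_eq]
    exact dist_yy Ψ h1 h2 x hn hm
  choose g hg using fun x => cauchySeq_tendsto_of_complete (hC x)
  refine ⟨g, Isometry.of_dist_eq fun x x' => ?_, ?_⟩
  · have e1 : Tendsto (fun n => dist (yy Ψ x n) (yy Ψ x' n)) atTop (𝓝 (dist (g x) (g x'))) := by
      have := (hg x).dist (hg x')
      simpa only [Completion.dist_eq] using this
    have e0 := tendsto_one_div_add_atTop_nhds_zero_nat (𝕜 := ℝ)
    apply le_antisymm
    · have e2 : Tendsto (fun n : ℕ => max (dist x x') (1 / ((n : ℝ) + 1))) atTop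
          (𝓝 (max (dist x x') 0)) := tendsto_const_nhds.max e0
      rw [max_eq_left dist_nonneg] at e2
      exact le_of_tendsto_of_tendsto' e1 e2 fun n => dist_yy_le Ψ h1 h2 x x' n
    · have e2 : Tendsto (fun n : ℕ => max (dist (yy Ψ x n) (yy Ψ x' n)) (1 / ((n : ℝ) + 1))) atTop
          (𝓝 (max (dist (g x) (g x')) 0)) := e1.max e0
      rw [max_eq_left dist_nonneg] at e2
      exact ge_of_tendsto' e2 fun n => le_dist_yy Ψ h1 h2 x x' n
  · -- dense range
    have hd1 : ∀ y : Y, (y : Completion Y) ∈ closure (range g) := by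
      intro y
      rw [Metric.mem_closure_iff]
      intro ε hε
      obtain ⟨n, hn⟩ := exists_nat_one_div_lt hε
      set A := Ψ.symm (bn y n) with hA
      have hAB : Ψ A = bn y n := Ψ.apply_symm_apply _
      have hdA : dm A ≤ 1 / ((n : ℝ) + 1) := by
        rw [← h2, hAB]; exact dm_bn y n
      obtain ⟨x, hx⟩ := A.nonempty
      refine ⟨g x, mem_range_self _, lt_of_le_of_lt ?_ hn⟩
      have e1 : Tendsto (fun m => dist (y : Completion Y) (yy Ψ x m : Y)) atTop
          (𝓝 (dist (y : Completion Y) (g x))) := tendsto_const_nhds.dist (hg x)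
      refine le_of_tendsto e1 ?_
      filter_upwards [eventually_ge_atTop n] with m hm
      rw [Completion.dist_eq]
      have hy : y ∈ (Ψ A).1 := by rw [hAB]; exact mem_bn y n
      refine (dist_le_max hy (yy_mem Ψ x m)).trans ?_
      rw [h1, h2]
      refine max_le ((hd_le hx (mem_bn x m)).trans ?_) hdA
      rw [dist_self]
      refine max_le (by positivity) (max_le hdA ((dm_bn x m).trans ?_))
      exact one_div_le_one_div_of_le (by positivity) (by gcongr)
    rw [DenseRange, dense_iff_closure_eq, eq_univ_iff_forall]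
    intro y
    have h3 : closure (range ((↑) : Y → Completion Y)) ⊆ closure (range g) := by
      refine closure_minimal ?_ isClosed_closure
      rintro _ ⟨y, rfl⟩
      exact hd1 y
    exact h3 (Completion.denseRange_coe y)

include h1 h2 in
lemma completions : Nonempty (Completion X ≃ᵢ Completion Y) := by
  obtain ⟨g, hg, hgd⟩ := exists_isometry Ψ h1 h2
  have hG : Isometry (Completion.extension g) := hg.completion_extension
  have hsurj : Function.Surjective (Completion.extension g) := by
    have hcl : IsClosed (range (Completion.extension g)) := hG.isClosedEmbedding.isClosed_range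
    have hsub : range g ⊆ range (Completion.extension g) := by
      rintro _ ⟨x, rfl⟩
      exact ⟨x, Completion.extension_coe hg.uniformContinuous x⟩
    intro y
    have : closure (range g) ⊆ range (Completion.extension g) := closure_minimal hsub hcl
    exact this (hgd y)
  exact ⟨⟨Equiv.ofBijective _ ⟨hG.injective, hsurj⟩, hG⟩⟩

end Backward

section Forward

variable {X : Type u} [MetricSpace X] [IsUltrametricDist X]

instance ultra_completion : IsUltrametricDist (Completion X) := by
  refine ⟨fun x y z => ?_⟩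
  refine Completion.induction_on₃ x y z ?_ ?_
  · exact isClosed_le (by fun_prop) (by fun_prop)
  · intro a b c
    rw [Completion.dist_eq, Completion.dist_eq, Completion.dist_eq]
    exact dist_triangle_max a b c

lemma closure_ball (a : X) {r : ℝ} (hr : 0 < r) :
    closure (((↑) : X → Completion X) '' closedBall a r) = closedBall (a : Completion X) r := by
  apply subset_antisymm
  · refine closure_minimal ?_ isClosed_closedBall
    rintro _ ⟨x, hx, rfl⟩
    rw [mem_closedBall, Completion.dist_eq]
    exact hx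
  · intro x hx
    rw [Metric.mem_closure_iff]
    intro ε hε
    obtain ⟨y, hy⟩ := Completion.denseRange_coe.exists_dist_lt x (lt_min hε hr)
    refine ⟨y, ⟨y, ?_, rfl⟩, hy.trans_le (min_le_left _ _)⟩
    rw [mem_closedBall, ← Completion.dist_eq]
    refine (dist_triangle_max (y : Completion X) x a).trans (max_le ?_ hx)
    rw [dist_comm]
    exact hy.le.trans (min_le_right _ _)

/-- the closure of a ball in the completion -/
noncomputable def toCompl (A : BallSpace X) : BallSpace (Completion X) :=
  ⟨closure (((↑) : X → Completion X) '' A.1), by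
    obtain ⟨_, c, r, hr, rfl⟩ := A
    exact ⟨c, r, hr, closure_ball c hr⟩⟩

lemma toCompl_bijective : Function.Bijective (toCompl : BallSpace X → BallSpace (Completion X)) := by
  constructor
  · intro A B hAB
    have key : ∀ A : BallSpace X, A.1 = ((↑) : X → Completion X) ⁻¹' (toCompl A).1 := by
      intro A
      have hcl : IsClosed A.1 := by
        obtain ⟨_, c, r, hr, rfl⟩ := A
        exact isClosed_closedBall
      have h := (Completion.isUniformInducing_coe X).isInducing.closure_eq_preimage_closure_image A.1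
      rw [hcl.closure_eq] at h
      exact h
    apply Subtype.ext
    rw [key A, key B, hAB]
  · rintro ⟨_, c, r, hr, rfl⟩
    obtain ⟨a, ha⟩ := Completion.denseRange_coe.exists_dist_lt c hr
    refine ⟨⟨closedBall a r, a, r, hr, rfl⟩, Subtype.ext ?_⟩
    have hac : (a : Completion X) ∈ closedBall c r := by
      rw [mem_closedBall, dist_comm]; exact ha.le
    exact (closure_ball a hr).trans (IsUltrametricDist.closedBall_eq_of_mem hac).symm

lemma hd_toCompl (A B : BallSpace X) : hd (toCompl A) (toCompl B) = hd A B := by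
  unfold hd toCompl
  simp only
  rw [hausdorffDist_closure, hausdorffDist_image Completion.coe_isometry]

variable {Y : Type v} [MetricSpace Y]

omit [IsUltrametricDist X] in
lemma exists_image {X : Type u} [MetricSpace X] (φ : X ≃ᵢ Y) : ∃ F : BallSpace X ≃ BallSpace Y,
    ∀ A B, hd (F A) (F B) = hd A B := by
  have key : ∀ {X : Type u} {Y : Type v} [MetricSpace X] [MetricSpace Y] (φ : X ≃ᵢ Y)
      (A : BallSpace X), ∃ c : Y, ∃ r : ℝ, 0 < r ∧ φ '' A.1 = closedBall c r := by
    rintro X Y _ _ φ ⟨_, c, r, hr, rfl⟩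
    exact ⟨φ c, r, hr, by rw [IsometryEquiv.image_closedBall]⟩
  have key' : ∀ {X : Type v} {Y : Type u} [MetricSpace X] [MetricSpace Y] (φ : X ≃ᵢ Y)
      (A : BallSpace X), ∃ c : Y, ∃ r : ℝ, 0 < r ∧ φ '' A.1 = closedBall c r := by
    rintro X Y _ _ φ ⟨_, c, r, hr, rfl⟩
    exact ⟨φ c, r, hr, by rw [IsometryEquiv.image_closedBall]⟩
  refine ⟨⟨fun A => ⟨φ '' A.1, key φ A⟩, fun B => ⟨φ.symm '' B.1, key' φ.symm B⟩, ?_, ?_⟩, ?_⟩
  · intro A
    apply Subtype.ext
    change φ.symm '' (φ '' A.1) = A.1
    rw [← image_comp]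
    simp
  · intro B
    apply Subtype.ext
    change φ '' (φ.symm '' B.1) = B.1
    rw [← image_comp]
    simp
  · intro A B
    exact hausdorffDist_image φ.isometry

end Forward

/-- Two nonempty ultrametric spaces have isometric completions if and only if their spaces of
closed balls of positive radius, with the Hausdorff distance, are isometric. -/
theorem result (X : Type u) (Y : Type v) [MetricSpace X] [IsUltrametricDist X] [Nonempty X]
    [MetricSpace Y] [IsUltrametricDist Y] [Nonempty Y] :
    Nonempty (Completion X ≃ᵢ Completion Y) ↔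
      ∃ F : BallSpace X ≃ BallSpace Y, ∀ A B : BallSpace X,
        hausdorffDist (F A).1 (F B).1 = hausdorffDist A.1 B.1 := by
  constructor
  · rintro ⟨φ⟩
    obtain ⟨F, hF⟩ := exists_image φ
    let EX : BallSpace X ≃ BallSpace (Completion X) := Equiv.ofBijective _ toCompl_bijective
    let EY : BallSpace Y ≃ BallSpace (Completion Y) := Equiv.ofBijective _ toCompl_bijective
    refine ⟨(EX.trans F).trans EY.symm, fun A B => ?_⟩
    change hd (EY.symm (F (EX A))) (EY.symm (F (EX B))) = hd A B
    have h1 : ∀ C D, hd (EY.symm C) (EY.symm D) = hd C D := by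
      intro C D
      have := hd_toCompl (EY.symm C) (EY.symm D)
      rw [← this]
      congr 1
      · exact (EY.apply_symm_apply C)
      · exact (EY.apply_symm_apply D)
    rw [h1, hF]
    exact hd_toCompl A B
  · rintro ⟨F, hF⟩
    obtain ⟨Ψ, h1, h2⟩ := exists_corrected (dd (X := X)) (dd (X := Y)) F hF
    exact completions Ψ h1 h2

end Pool.Agent.Results.MP_856f66_gt.BallSpaces
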